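import Pool.Agent.K1H14.SD.Stm4
import Pool.Agent.K1H59.SD.TR

/-!
Project SD, piece FINM: square root in the vector representation.
-/

set_option autoImplicit false

namespace Pool.Agent.K1H3.SD

open Pool.Agent.K1H14.SD Pool.Agent.K1H14.KS

open scoped symmDiff

universe u

variable {A : Type u} [Ring A] [Algebra ℂ A] {d : ℕ} {M : Finset (Fin d) → A} {st : A →ₗ[ℂ] A}

theorem st_one (h : EvenCl M st) : st 1 = 1 := by
  have h1 := h.st_M ∅ (by simp)
  rw [h.one] at h1
  simpa using h1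

theorem even_card (h : EvenCl M st) {K : Finset (Fin d)} (hK : K.card = d - 1) : Even K.card := by
  rw [hK]
  obtain ⟨k, hk⟩ := h.odd
  exact ⟨k, by omega⟩

theorem st_lev (h : EvenCl M st) (h3 : d % 4 = 3) {x : A} (hx : x ∈ Lev M (d - 1)) : st x = -x := by
  unfold Lev at hx
  induction hx using Submodule.span_induction with
  | mem x hx =>
    obtain ⟨K, hK, rfl⟩ := hx
    rw [h.st_M K (even_card h hK)]
    have h1 : Odd (K.card / 2) := by
      rw [hK, Nat.odd_iff]
      omega
    rw [h1.neg_one_pow, neg_one_smul]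
  | zero => simp
  | add x y _ _ hx hy => rw [map_add, hx, hy]; abel
  | smul c x _ hx => rw [map_smul, hx, smul_neg]

theorem anti_MM (h : EvenCl M st) (h3 : d % 4 = 3) {K L : Finset (Fin d)} (hK : K.card = d - 1)
    (hL : L.card = d - 1) : ∃ c : ℂ, M K * M L + M L * M K = c • (1 : A) := by
  by_cases hKL : K = L
  · subst hKL
    refine ⟨-2, ?_⟩
    have h1 := h.st_inv K (even_card h hK)
    have h2 : st (M K) = - M K := st_lev h h3 (Submodule.subset_span ⟨K, hK, rfl⟩)
    rw [h2, neg_mul] at h1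
    have h4 : M K * M K = -1 := by rw [← h1, neg_neg]
    rw [h4]
    rw [neg_smul, two_smul]
    abel
  · refine ⟨0, ?_⟩
    have h1 := h.comm K L (even_card h hK) (even_card h hL)
    have hd : 0 < d := by omega
    have h2 : (K ∩ L).card + (K ∪ L).card = (d - 1) + (d - 1) := by
      rw [Finset.card_inter_add_card_union, hK, hL]
    have h5 : K ⊂ K ∪ L := by
      refine Finset.ssubset_iff_subset_ne.2 ⟨Finset.subset_union_left, fun h6 => hKL ?_⟩
      have h7 : L ⊆ K := by
        rw [h6]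
        exact Finset.subset_union_right
      exact (Finset.eq_of_subset_of_card_le h7 (by omega)).symm
    have h6 := Finset.card_lt_card h5
    have h7 : (K ∪ L).card ≤ d := by
      have := Finset.card_le_univ (K ∪ L)
      simpa using this
    have h8 : (K ∩ L).card = d - 2 := by omega
    have h9 : Odd (K ∩ L).card := by
      rw [h8, Nat.odd_iff]
      omega
    rw [h9.neg_one_pow, neg_one_smul] at h1
    rw [h1, zero_smul, neg_add_cancel]

theorem anti_lev (h : EvenCl M st) (h3 : d % 4 = 3) {x y : A} (hx : x ∈ Lev M (d - 1))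
    (hy : y ∈ Lev M (d - 1)) : ∃ c : ℂ, x * y + y * x = c • (1 : A) := by
  unfold Lev at hx hy
  induction hx using Submodule.span_induction with
  | mem x hx =>
    obtain ⟨K, hK, rfl⟩ := hx
    induction hy using Submodule.span_induction with
    | mem y hy =>
      obtain ⟨L, hL, rfl⟩ := hy
      exact anti_MM h h3 hK hL
    | zero => exact ⟨0, by simp⟩
    | add y z _ _ hy hz =>
      obtain ⟨c, hc⟩ := hy
      obtain ⟨c', hc'⟩ := hz
      refine ⟨c + c', ?_⟩
      rw [add_smul, ← hc, ← hc']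
      noncomm_ring
    | smul a y _ hy =>
      obtain ⟨c, hc⟩ := hy
      refine ⟨a * c, ?_⟩
      rw [mul_smul, ← hc, mul_smul_comm, smul_mul_assoc, smul_add]
  | zero => exact ⟨0, by simp⟩
  | add x z _ _ hx hz =>
    obtain ⟨c, hc⟩ := hx
    obtain ⟨c', hc'⟩ := hz
    refine ⟨c + c', ?_⟩
    rw [add_smul, ← hc, ← hc']
    noncomm_ring
  | smul a x _ hx =>
    obtain ⟨c, hc⟩ := hx
    refine ⟨a * c, ?_⟩
    rw [mul_smul, ← hc, mul_smul_comm, smul_mul_assoc, smul_add]

theorem sq_lev (h : EvenCl M st) (h3 : d % 4 = 3) {x : A} (hx : x ∈ Lev M (d - 1)) :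
    ∃ μ : ℂ, x * x = μ • (1 : A) := by
  obtain ⟨c, hc⟩ := anti_lev h h3 hx hx
  refine ⟨c / 2, ?_⟩
  have h1 : (2 : ℂ) • (x * x) = c • (1 : A) := by rw [two_smul, hc]
  have h2 : x * x = (2 : ℂ)⁻¹ • ((2 : ℂ) • (x * x)) := by
    rw [smul_smul, inv_mul_cancel₀ (by norm_num), one_smul]
  rw [h2, h1, smul_smul]
  congr 1
  ring

theorem tr_lev {tr : A →ₗ[ℂ] ℂ} (h : EvenCl M st) (ht : IsTr M tr) (h5 : 5 ≤ d) {x : A}
    (hx : x ∈ Lev M (d - 1)) : tr x = 0 := by
  unfold Lev at hx
  induction hx using Submodule.span_induction with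
  | mem x hx =>
    obtain ⟨K, hK, rfl⟩ := hx
    rw [ht.1 K (even_card h hK), if_neg]
    rintro rfl
    simp at hK
    omega
  | zero => simp
  | add x y _ _ hx hy => rw [map_add, hx, hy, add_zero]
  | smul c x _ hx => rw [map_smul, hx, smul_zero]

theorem mem_V (h : EvenCl M st) {e : A} (he : e ∈ Lev M 0 ⊔ Lev M (d - 1)) :
    ∃ (a : ℂ), ∃ x ∈ Lev M (d - 1), e = a • (1 : A) + x := by
  obtain ⟨y, hy, x, hx, rfl⟩ := Submodule.mem_sup.1 he
  unfold Lev at hy
  have h1 : {x | ∃ K : Finset (Fin d), K.card = 0 ∧ x = M K} = {(1 : A)} := by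
    ext z
    simp only [Finset.card_eq_zero, exists_eq_left, h.one, Set.mem_singleton_iff]
    rfl
  rw [h1] at hy
  obtain ⟨a, rfl⟩ := Submodule.mem_span_singleton.1 hy
  exact ⟨a, x, hx, rfl⟩

theorem mem_V' (h : EvenCl M st) {x : A} (a : ℂ) (hx : x ∈ Lev M (d - 1)) :
    a • (1 : A) + x ∈ Lev M 0 ⊔ Lev M (d - 1) := by
  refine Submodule.add_mem_sup (Submodule.smul_mem _ _ ?_) hx
  exact Submodule.subset_span ⟨∅, by simp, h.one.symm⟩

theorem one_inj (h : EvenCl M st) {a b : ℂ} (hab : a • (1 : A) = b • (1 : A)) : a = b := by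
  have h1 : (a - b) • (1 : A) = 0 := by rw [sub_smul, hab, sub_self]
  rcases smul_eq_zero.1 h1 with h2 | h2
  · exact sub_eq_zero.1 h2
  · exact absurd h2 h.ne

theorem t_FINM : S_FINM.{u} := by
  intro A _ _ d M st s t h h3 h5 hs1 hs2 ht1 ht2 hV
  obtain ⟨_, tr, htr⟩ := Pool.Agent.K1H59.SD.t_TR M st h
  -- the vector w0
  have hw0 : s * st t ∈ Lev M 0 ⊔ Lev M (d - 1) := by
    have h1 : (1 : A) ∈ Lev M 0 ⊔ Lev M (d - 1) := by
      have := mem_V' (M := M) (st := st) h (x := 0) 1 (Submodule.zero_mem _)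
      simpa using this
    have h2 := hV 1 h1
    rwa [mul_one] at h2
  obtain ⟨a, x, hx, hw⟩ := mem_V h hw0
  obtain ⟨μ, hμ⟩ := sq_lev h h3 hx
  have hstx := st_lev h h3 hx
  have hstw : t * st s = a • (1 : A) - x := by
    have h1 : st (s * st t) = t * st s := by rw [h.st_mul, h.st_st]
    rw [← h1, hw, map_add, map_smul, st_one h, hstx, sub_eq_add_neg]
  have hww : (s * st t) * (t * st s) = 1 := by
    calc (s * st t) * (t * st s) = s * (st t * t) * st s := by noncomm_ring
      _ = 1 := by rw [ht1, mul_one, hs2]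
  have haμ : a * a - μ = 1 := by
    rw [hw, hstw] at hww
    have h1 : (a • (1 : A) + x) * (a • (1 : A) - x) = (a * a - μ) • (1 : A) := by
      rw [sub_smul, ← hμ]
      simp only [add_mul, mul_sub, smul_mul_assoc, mul_smul_comm, one_mul, mul_one, smul_add, smul_sub, smul_smul]
      abel
    rw [h1] at hww
    exact one_inj h (by rw [hww, one_smul])
  obtain ⟨ε, hε2, hε⟩ : ∃ ε : ℂ, ε * ε = 1 ∧ 1 + ε * a ≠ 0 := by
    by_cases h1 : 1 + a = 0
    · refine ⟨-1, by norm_num, ?_⟩
      have h2 : a = -1 := by linear_combination h1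
      rw [h2]
      norm_num
    · exact ⟨1, by norm_num, by simpa using h1⟩
  obtain ⟨κ, hκ⟩ : ∃ κ : ℂ, κ * κ = 2 * (1 + ε * a) := by
    obtain ⟨κ, hκ⟩ := IsAlgClosed.exists_pow_nat_eq (2 * (1 + ε * a)) (n := 2) (by norm_num)
    exact ⟨κ, by rw [← hκ, sq]⟩
  have hκ0 : κ ≠ 0 := by
    rintro rfl
    rw [mul_zero] at hκ
    exact hε (by linear_combination (-1 / 2 : ℂ) * hκ)
  -- the square root
  set a1 : ℂ := κ⁻¹ * (1 + ε * a) with ha1
  set c1 : ℂ := κ⁻¹ * ε with hc1
  set x1 : A := c1 • x with hx1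
  have hx1L : x1 ∈ Lev M (d - 1) := Submodule.smul_mem _ _ hx
  have hx1x1 : x1 * x1 = (c1 * c1 * μ) • (1 : A) := by
    rw [hx1, smul_mul_smul_comm, hμ, smul_smul]
  have hki : κ⁻¹ * κ⁻¹ * (2 * (1 + ε * a)) = 1 := by
    rw [← hκ]
    field_simp
  have hn : a1 * a1 - c1 * c1 * μ = 1 := by
    have hμ' : μ = a * a - 1 := by linear_combination -haμ
    rw [ha1, hc1, hμ']
    linear_combination hki + (κ⁻¹ * κ⁻¹ * (a * a) - κ⁻¹ * κ⁻¹ * (a * a) + κ⁻¹ * κ⁻¹) * hε2
  set r : A := a1 • (1 : A) + x1 with hr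
  have hstr : st r = a1 • (1 : A) - x1 := by
    rw [hr, map_add, map_smul, st_one h, st_lev h h3 hx1L, sub_eq_add_neg]
  have hrr1 : st r * r = 1 := by
    rw [hstr, hr]
    have h1 : (a1 • (1 : A) - x1) * (a1 • (1 : A) + x1) = (a1 * a1 - c1 * c1 * μ) • (1 : A) := by
      rw [sub_smul, ← hx1x1]
      simp only [sub_mul, mul_add, smul_mul_assoc, mul_smul_comm, one_mul, mul_one, smul_add, smul_sub, smul_smul]
      abel
    rw [h1, hn, one_smul]
  have hrr2 : r * st r = 1 := by
    rw [hstr, hr]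
    have h1 : (a1 • (1 : A) + x1) * (a1 • (1 : A) - x1) = (a1 * a1 - c1 * c1 * μ) • (1 : A) := by
      rw [sub_smul, ← hx1x1]
      simp only [add_mul, mul_sub, smul_mul_assoc, mul_smul_comm, one_mul, mul_one, smul_add, smul_sub, smul_smul]
      abel
    rw [h1, hn, one_smul]
  -- the square of `st r`
  have hsq : st r * st r = ε • (t * st s) := by
    rw [hstr, hstw]
    have h1 : (a1 • (1 : A) - x1) * (a1 • (1 : A) - x1) =
        (a1 * a1 + c1 * c1 * μ) • (1 : A) - (2 * a1 * c1) • x := by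
      have h2 : (a1 • (1 : A) - x1) * (a1 • (1 : A) - x1) =
          (a1 * a1) • (1 : A) + x1 * x1 - (2 * a1) • x1 := by
        simp only [sub_mul, mul_sub, smul_mul_assoc, mul_smul_comm, one_mul, mul_one, smul_add, smul_sub, smul_smul, two_mul,
          add_smul]
        abel
      rw [h2, hx1x1, add_smul, hx1, smul_smul]
    have e1 : a1 * a1 + c1 * c1 * μ = ε * a := by
      have hμ' : μ = a * a - 1 := by linear_combination -haμ
      rw [ha1, hc1, hμ']
      linear_combination (ε * a) * hki + (κ⁻¹ * κ⁻¹ * (a * a) - κ⁻¹ * κ⁻¹ - κ⁻¹ * κ⁻¹ * (a * a)) * hε2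
    have e2 : 2 * a1 * c1 = ε := by
      rw [ha1, hc1]
      linear_combination ε * hki
    rw [h1, e1, e2, smul_sub, smul_smul]
  refine ⟨r, hrr1, hrr2, ?_, a1, c1 * c1 * μ, x1, hx1L, hr, hx1x1, hn⟩
  intro y hy
  -- the element
  have hE : (st r * s) * y * st (st r * s) = ε • (st r * (s * y * st t) * st r) := by
    have h1 : st (st r * s) = st s * r := by rw [h.st_mul, h.st_st]
    have h2 : st s = st t * (t * st s) := by rw [← mul_assoc, ht1, one_mul]
    have h3' : t * st s = ε • (st r * st r) := by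
      rw [hsq, smul_smul, hε2, one_smul]
    rw [h1]
    calc st r * s * y * (st s * r) = st r * s * y * (st t * (t * st s) * r) := by rw [← h2]
      _ = st r * s * y * (st t * (ε • (st r * st r)) * r) := by rw [h3']
      _ = ε • (st r * s * y * (st t * (st r * st r) * r)) := by
          simp only [mul_smul_comm, smul_mul_assoc]
      _ = ε • (st r * (s * y * st t) * st r * (st r * r)) := by
          congr 1
          noncomm_ring
      _ = _ := by rw [hrr1, mul_one]
  have hyV : y ∈ Lev M 0 ⊔ Lev M (d - 1) := by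
    have := mem_V' (M := M) (st := st) h 0 hy
    simpa using this
  obtain ⟨b, z, hz, hbz⟩ := mem_V h (hV y hyV)
  obtain ⟨c, hc⟩ := anti_lev h h3 hx1L hz
  have hcomp : st r * (s * y * st t) * st r =
      (b * (a1 * a1) + b * (c1 * c1 * μ) - a1 * c) • (1 : A) +
        (-(2 * a1 * b) • x1 + (a1 * a1) • z + c • x1 - (c1 * c1 * μ) • z) := by
    rw [hbz, hstr]
    have h1 : (a1 • (1 : A) - x1) * (b • (1 : A) + z) * (a1 • (1 : A) - x1) =
        (b * (a1 * a1)) • (1 : A) + b • (x1 * x1) - a1 • (x1 * z + z * x1) - (2 * a1 * b) • x1 +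
          (a1 * a1) • z + (x1 * z + z * x1) * x1 - z * (x1 * x1) := by
      have h2 : (x1 * z + z * x1) * x1 - z * (x1 * x1) = x1 * z * x1 := by noncomm_ring
      have h4 : (a1 • (1 : A) - x1) * (b • (1 : A) + z) * (a1 • (1 : A) - x1) =
          (b * (a1 * a1)) • (1 : A) + b • (x1 * x1) - a1 • (x1 * z + z * x1) - (2 * a1 * b) • x1 +
          (a1 * a1) • z + x1 * z * x1 := by
        simp only [sub_mul, mul_sub, mul_add, add_mul, smul_mul_assoc, mul_smul_comm, one_mul, mul_one,
          smul_smul, smul_add, smul_sub]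
        have e1 : (2 * a1 * b) • x1 = (a1 * b) • x1 + (a1 * b) • x1 := by
          rw [← add_smul]; congr 1; ring
        have e2 : b * (a1 * a1) = a1 * (a1 * b) := by ring
        have e3 : b * a1 = a1 * b := mul_comm _ _
        rw [e1, e2]
        simp only [e3]
        abel
      rw [h4, ← h2]
      abel
    rw [h1, hc, hx1x1]
    simp only [smul_mul_assoc, one_mul, mul_smul_comm, mul_one, smul_smul, add_smul, sub_smul, neg_smul]
    abel
  set L : A := -(2 * a1 * b) • x1 + (a1 * a1) • z + c • x1 - (c1 * c1 * μ) • z with hL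
  have hLL : L ∈ Lev M (d - 1) := by
    refine Submodule.sub_mem _ (Submodule.add_mem _ (Submodule.add_mem _ ?_ ?_) ?_) ?_
    · exact Submodule.smul_mem _ _ hx1L
    · exact Submodule.smul_mem _ _ hz
    · exact Submodule.smul_mem _ _ hx1L
    · exact Submodule.smul_mem _ _ hz
  have htrE : tr ((st r * s) * y * st (st r * s)) = 0 := by
    rw [htr.2, ← mul_assoc]
    have h1 : st (st r * s) * (st r * s) = 1 := by
      rw [h.st_mul, h.st_st]
      calc st s * r * (st r * s) = st s * (r * st r) * s := by noncomm_ring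
        _ = 1 := by rw [hrr2, mul_one, hs1]
    rw [h1, one_mul]
    exact tr_lev h htr h5 hy
  rw [hE, hcomp] at htrE ⊢
  rw [map_smul, map_add, map_smul, tr_lev h htr h5 hLL, add_zero] at htrE
  have htr1 : tr 1 = 1 := by
    have := htr.1 ∅ (by simp)
    rw [h.one] at this
    simpa using this
  rw [htr1, smul_eq_mul, smul_eq_mul, mul_one] at htrE
  have hε0 : ε ≠ 0 := by
    rintro rfl
    simp at hε2
  have h0 := (mul_eq_zero.1 htrE).resolve_left hε0
  rw [h0, zero_smul, zero_add]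
  exact Submodule.smul_mem _ _ hLL

end Pool.Agent.K1H3.SD
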